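import Pool.Graph.R_pool_sql_team_seeded_63374d34.N509.OM.Main
import Pool.Graph.R_pool_sql_team_seeded_64922ed1.X176.FJ.Div

/-!
# Homomorphisms from the rational numbers, and homomorphisms defined by cocycles on trees
-/

set_option autoImplicit false

namespace Pool.Agent.H4.CS

open SimpleGraph
open Pool.Agent.Y110.FJ
open Pool.Agent.N509.TK
open Pool.Agent.N509.TX
open Pool.Agent.N509.OM
open Pool.Agent.N24.TR (gam gam_mul gam_self)
open Pool.Agent.X176.FJ (IsDiv)

section qhom

variable {D : Type} [Group D]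

/-- every element of a divisible group is the image of `1` under a homomorphism from `ℚ` -/
theorem exists_qhom (hD : IsDiv D) (x : D) :
    ∃ j : ℚ → D, (∀ a b, j (a + b) = j a * j b) ∧ ∀ n : ℤ, j n = x ^ n := by
  choose rt hrt using hD
  let r : ℕ → D := fun n => Nat.rec x (fun n y => rt y (n + 1) n.succ_pos) n
  have hr0 : r 0 = x := rfl
  have hrs : ∀ n, r (n + 1) ^ (n + 1) = r n := fun n => hrt (r n) (n + 1) n.succ_pos
  have key : ∀ d n : ℕ, ∃ q : ℤ, ((n + d).factorial : ℤ) = q * (n.factorial : ℤ) ∧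
      r n = r (n + d) ^ q := by
    intro d n
    induction d with
    | zero => exact ⟨1, by simp, by simp⟩
    | succ d ih =>
      obtain ⟨q, h1, h2⟩ := ih
      refine ⟨(n + d + 1) * q, ?_, ?_⟩
      · show ((n + d + 1).factorial : ℤ) = _
        rw [Nat.factorial_succ]
        push_cast
        rw [h1]
        ring
      · rw [h2, ← hrs (n + d), ← zpow_natCast, ← zpow_mul]
        congr 1
  have hwd : ∀ (q : ℚ) (m n : ℕ) (k l : ℤ), (k : ℚ) = q * (m.factorial : ℚ) →
      (l : ℚ) = q * (n.factorial : ℚ) → m ≤ n → r m ^ k = r n ^ l := by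
    intro q m n k l hk hl hmn
    obtain ⟨d, rfl⟩ := Nat.exists_eq_add_of_le hmn
    obtain ⟨e, h1, h2⟩ := key d m
    rw [h2, ← zpow_mul]
    congr 1
    have h3 : ((m + d).factorial : ℚ) = (e : ℚ) * (m.factorial : ℚ) := by exact_mod_cast h1
    have h4 : (l : ℚ) = e * k := by
      rw [hl, h3, hk]
      ring
    exact_mod_cast h4.symm
  have hwd' : ∀ (q : ℚ) (m n : ℕ) (k l : ℤ), (k : ℚ) = q * (m.factorial : ℚ) →
      (l : ℚ) = q * (n.factorial : ℚ) → r m ^ k = r n ^ l := by
    intro q m n k l hk hl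
    rcases le_total m n with h | h
    · exact hwd q m n k l hk hl h
    · exact (hwd q n m l k hl hk h).symm
  have hex : ∀ (q : ℚ) (n : ℕ), q.den ≤ n → ∃ k : ℤ, (k : ℚ) = q * (n.factorial : ℚ) := by
    intro q n hn
    obtain ⟨e, he⟩ := Nat.dvd_factorial q.den_pos hn
    refine ⟨q.num * e, ?_⟩
    rw [he]
    push_cast
    have h5 : q * (q.den : ℚ) = q.num := Rat.mul_den_eq_num q
    rw [← mul_assoc, h5]
  have hex' : ∀ q : ℚ, ∃ k : ℤ, (k : ℚ) = q * (q.den.factorial : ℚ) := fun q => hex q _ le_rfl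
  choose nu hnu using hex'
  refine ⟨fun q => r q.den ^ nu q, ?_, ?_⟩
  · intro a b
    obtain ⟨N, hN⟩ : ∃ N, N = a.den + b.den + (a + b).den := ⟨_, rfl⟩
    obtain ⟨k, hk⟩ := hex a N (by omega)
    obtain ⟨l, hl⟩ := hex b N (by omega)
    have hkl : ((k + l : ℤ) : ℚ) = (a + b) * (N.factorial : ℚ) := by
      push_cast
      rw [hk, hl]
      ring
    show r (a + b).den ^ nu (a + b) = r a.den ^ nu a * r b.den ^ nu b
    rw [hwd' (a + b) _ N _ _ (hnu _) hkl, hwd' a _ N _ _ (hnu _) hk, hwd' b _ N _ _ (hnu _) hl,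
      zpow_add]
  · intro n
    show r (n : ℚ).den ^ nu (n : ℚ) = x ^ n
    rw [hwd' (n : ℚ) _ 0 _ n (hnu _) (by simp), hr0]

end qhom

section gauge

variable {G V D : Type} {T : SimpleGraph V} [Group G] [MulAction G V] [Group D]

/-- the homomorphism defined by a cocycle and an equivariant labelling of the edges -/
theorem gauge_hom (hT : T.IsTree)
    (hact : ∀ (g : G) (u v : V), T.Adj u v → T.Adj (g • u) (g • v)) (μ : G → V → D)
    (hμ : ∀ (g k : G) (w : V), μ (g * k) w = μ g (k • w) * μ k w) (e : V → V → D)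
    (he : ∀ u v, T.Adj u v → e u v * e v u = 1)
    (heg : ∀ (g : G) (u v : V), T.Adj u v → e (g • u) (g • v) = μ g u * e u v * (μ g v)⁻¹) :
    ∃ ρ : G →* D, ∀ w : V, ∃ c : D, ∀ g : G, g • w = w → ρ g = c * μ g w * c⁻¹ := by
  obtain ⟨v⟩ := hT.connected.nonempty
  have hgam := fun (g : G) (u w : V) => gam_gauge hT hact e he g (μ g) (heg g) u w
  have hgm := gam_mul hT e he
  have hgs := gam_self hT e he
  have hμone : ∀ w, μ 1 w = 1 := by
    intro w
    have h3 := hμ 1 1 w
    rw [mul_one, one_smul] at h3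
    exact left_eq_mul.1 h3
  refine ⟨⟨⟨fun g => gam hT e v (g • v) * μ g v, ?_⟩, ?_⟩, ?_⟩
  · show gam hT e v ((1 : G) • v) * μ 1 v = 1
    rw [one_smul, hgs, hμone, mul_one]
  · intro g k
    show gam hT e v ((g * k) • v) * μ (g * k) v =
      gam hT e v (g • v) * μ g v * (gam hT e v (k • v) * μ k v)
    rw [mul_smul, ← hgm v (g • v) (g • k • v), hgam g v (k • v), hμ]
    group
  · intro w
    refine ⟨gam hT e v w, fun r hr => ?_⟩
    show gam hT e v (r • v) * μ r v = gam hT e v w * μ r w * (gam hT e v w)⁻¹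
    have h3 := hgam r w v
    rw [hr] at h3
    have h4 : gam hT e w v = (gam hT e v w)⁻¹ := by
      rw [eq_inv_iff_mul_eq_one, hgm, hgs]
    rw [← hgm v w (r • v), h3, h4]
    group

end gauge

end Pool.Agent.H4.CS
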