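import Pool.Agent.H4.CS.Stab

/-!
# Trees with cyclic edge stabilizers
-/

set_option autoImplicit false

namespace Pool.Agent.H4.CS

open SimpleGraph
open Pool.Agent.Y110.FJ
open Pool.Agent.N509.TK
open Pool.Agent.N509.TX
open Pool.Agent.N509.OM
open Pool.Agent.R941.FJ (C_equiv C_le C_cyc mem_sup_normal)

/-- the stabilizer of the edge is cyclic -/
def CyE (G : Type) {V : Type} [Group G] [MulAction G V] (v u : V) : Prop :=
  ∃ c : G, c • v = v ∧ c • u = u ∧ ∀ y : G, y • v = v → y • u = u → y ∈ Subgroup.zpowers c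

theorem CyE.conj {G V : Type} [Group G] [MulAction G V] {v u : V} (h : CyE G v u) (g : G) :
    CyE G (g • v) (g • u) := by
  obtain ⟨c, h1, h2, h3⟩ := h
  refine ⟨g * c * g⁻¹, ?_, ?_, ?_⟩
  · rw [mul_smul, inv_smul_smul, mul_smul, h1]
  · rw [mul_smul, inv_smul_smul, mul_smul, h2]
  · intro y hy1 hy2
    obtain ⟨i, hi⟩ := h3 (g⁻¹ * y * g) (by rw [mul_smul, mul_smul, hy1, inv_smul_smul])
      (by rw [mul_smul, mul_smul, hy2, inv_smul_smul])
    refine ⟨i, ?_⟩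
    have hi' : c ^ i = g⁻¹ * y * g := hi
    show (g * c * g⁻¹) ^ i = y
    rw [conj_zpow, hi']
    group

theorem CyE.sub {G V W : Type} [Group G] [MulAction G V] {T : SimpleGraph V} {H : Subgroup G}
    [MulAction H W] {T' : SimpleGraph W} {ι : W → V} (h : STree H T T' ι) {v u : W}
    (hx : CyE G (ι v) (ι u)) : CyE H v u := by
  obtain ⟨c, h1, h2, h3⟩ := hx
  obtain ⟨E, hE⟩ : ∃ E : Subgroup H, E = MulAction.stabilizer H v ⊓ MulAction.stabilizer H u :=
    ⟨_, rfl⟩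
  have hEc : ∀ y : H, y ∈ E → (y : G) ∈ Subgroup.zpowers c := by
    intro y hy
    rw [hE] at hy
    exact h3 _ (h.fix.1 hy.1) (h.fix.1 hy.2)
  let f : E →* Subgroup.zpowers c :=
    (H.subtype.comp E.subtype).codRestrict _ fun y => hEc y y.2
  have hf : Function.Injective f := by
    intro a b hab
    have h5 : (f a : G) = (f b : G) := by rw [hab]
    have h4 : ((a : H) : G) = ((b : H) : G) := h5
    exact Subtype.ext (Subtype.ext h4)
  have hcy : IsCyclic E := isCyclic_of_injective f hf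
  obtain ⟨⟨d, hd⟩, hd'⟩ := hcy.exists_generator
  have hd2 := hd
  rw [hE] at hd2
  refine ⟨d, hd2.1, hd2.2, fun y hy1 hy2 => ?_⟩
  have hyE : y ∈ E := by
    rw [hE]
    exact ⟨hy1, hy2⟩
  obtain ⟨i, hi⟩ := hd' ⟨y, hyE⟩
  exact ⟨i, congrArg Subtype.val hi⟩

/-- the condition on the vertex group of `v`: as `Nb`, but `Loc` may be replaced by the condition that
the stabilizers of the edges at `v` fixed by powers of `x` are cyclic -/
def Nb' (C : ∀ (G : Type) [Group G], Prop) {G V : Type} [Group G] [MulAction G V]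
    (T : SimpleGraph V) (v : V) (x : G) : Prop :=
  ∃ A : Subgroup G, (∀ a ∈ A, a • v = v) ∧
    (∀ u : V, T.Adj v u → ∀ n : ℤ, n ≠ 0 → x ^ n • v = v → x ^ n • u = u →
      ∀ y : G, y • v = v → y • u = u → y ∈ A) ∧
    (∀ g : G, g • v = v → ∀ m k : ℤ, m ≠ 0 → k ≠ 0 → g * x ^ m * g⁻¹ = x ^ k →
      ∀ a ∈ A, g * a * g⁻¹ ∈ A) ∧
    (∀ m : ℤ, m ≠ 0 → x ^ m ∉ ⁅A, A⁆) ∧ (Loc C v x A ∨
      ∀ u : V, T.Adj v u → ∀ n : ℤ, n ≠ 0 → x ^ n • v = v → x ^ n • u = u → CyE G v u)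

variable {C : ∀ (G : Type) [Group G], Prop}

section sub

variable {G V : Type} [Group G] [MulAction G V] {T : SimpleGraph V} {H : Subgroup G} {W : Type}
  [MulAction H W] {T' : SimpleGraph W} {ι : W → V}

theorem Nb'.sub (h : STree H T T' ι) {v : W} {x : H} (hx : Nb' C T (ι v) (x : G)) :
    Nb' C T' v x := by
  obtain ⟨A, h1, h2, h3, h4, h5⟩ := hx
  refine ⟨A.comap H.subtype, fun a ha => h.fix.2 (h1 a ha), ?_, ?_, ?_, ?_⟩
  · intro u hu n hn hxv hxu y hyv hyu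
    exact h2 (ι u) (h.adj _ _ hu) n hn (h.fix.1 hxv) (h.fix.1 hxu) y (h.fix.1 hyv) (h.fix.1 hyu)
  · intro g hg m k hm hk hgx a ha
    exact h3 g (h.fix.1 hg) m k hm hk (congrArg Subtype.val hgx) a ha
  · intro m hm hxm
    refine h4 m hm ?_
    have h6 : (⁅A.comap H.subtype, A.comap H.subtype⁆).map H.subtype ≤ ⁅A, A⁆ := by
      rw [Subgroup.map_commutator]
      exact Subgroup.commutator_mono (Subgroup.map_comap_le _ _) (Subgroup.map_comap_le _ _)
    exact h6 ⟨_, hxm, rfl⟩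
  · rcases h5 with h5 | h5
    · exact Or.inl (h5.sub h)
    · right
      intro u hu n hn hxv hxu
      exact (h5 (ι u) (h.adj _ _ hu) n hn (h.fix.1 hxv) (h.fix.1 hxu)).sub h

end sub

section unb

variable {G V : Type} {T : SimpleGraph V} [Group G] [MulAction G V] {A : V → Subgroup G}

/-- **the unbalanced case**, finitely generated groups -/
theorem unb_fg' (hC : ClosedE C) (hM : ∀ (G : Type) [Group G], derivedSeries G 2 = ⊥ → C G)
    (hAc : AcylN C) (hfg : Group.FG G) (hT : T.IsTree)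
    (hact : ∀ (g : G) (u v : V), T.Adj u v → T.Adj (g • u) (g • v)) {z : G} (hz : Inf z)
    (hE : ∀ u v : V, T.Adj u v → ∃ n : ℤ, n ≠ 0 ∧ z ^ n • u = u ∧ z ^ n • v = v ∧
      (Subgroup.zpowers (z ^ n)).relIndex (MulAction.stabilizer G u ⊓ MulAction.stabilizer G v) ≠ 0)
    (hEr : ∀ u v : V, T.Adj u v → Er G u v) (hEt : ∀ u v : V, T.Adj u v → ∃ n, Et G n u v)
    (hV : ∀ v : V, C ↥(MulAction.stabilizer G v)) (hA : Cov T A)
    (hcom : ∀ g : G, ∃ m k : ℤ, m ≠ 0 ∧ k ≠ 0 ∧ g * z ^ m * g⁻¹ = z ^ k)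
    (hloc : ∀ v : V, (MulAction.stabilizer G v ≤ LB z ∨
      ∃ (P : Type) (_ : Group P) (π : ↥(MulAction.stabilizer G v) →* P), C P ∧
        ∀ g : ↥(MulAction.stabilizer G v), π g = 1 ↔ (g : G) ∈ A v) ∨ ∀ u, T.Adj v u → CyE G v u)
    (hab : ∀ v : V, ∀ m : ℤ, m ≠ 0 → z ^ m ∉ ⁅A v, A v⁆) : C G := by
  by_cases hne : ∃ x y, T.Adj x y
  swap
  · push Not at hne
    exact kfin hC hM (hAc.toF hC) hT hact (1 : G →* Multiplicative ℤ) hC.base.int hV
      fun u v huv => absurd huv (hne u v)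
  obtain ⟨x0, y0, h0⟩ := hne
  obtain ⟨L, hL⟩ : ∃ L : Subgroup G, L = ⨆ v, A v := ⟨_, rfl⟩
  have hn : L.Normal := hL ▸ hA.normal
  have hSb : ∀ v, Sb L v = A v := by
    rw [hL]
    exact hA.Sb_eq hT hact
  have hLLB : L ≤ LB z := by
    rw [hL]
    refine iSup_le fun v x hx => ?_
    obtain ⟨u, hvu⟩ := exists_nbr hT h0 v
    obtain ⟨n, hn, h1, h2, _⟩ := hE v u hvu
    have h3 := hA.edg v u hvu _ h1 h2
    obtain ⟨m, k, hm, hk, h4⟩ := hcom x
    have h5 : x * (z ^ n) ^ m * x⁻¹ * ((z ^ n) ^ m)⁻¹ ∈ ⁅A v, A v⁆ :=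
      Subgroup.commutator_mem_commutator hx (Subgroup.zpow_mem _ h3 m)
    have h6 : x * (z ^ n) ^ m * x⁻¹ = z ^ (n * k) := by
      rw [← zpow_mul, mul_comm, zpow_mul, ← conj_zpow, h4, ← zpow_mul, mul_comm]
    rw [h6, ← zpow_mul, ← zpow_neg, ← zpow_add] at h5
    have h7 : n * k + -(n * m) = 0 := by
      by_contra h8
      exact hab v _ h8 h5
    have h8 : k = m := by
      have h9 : n * (k - m) = 0 := by linarith
      rcases mul_eq_zero.1 h9 with h10 | h10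
      · exact absurd h10 hn
      · linarith
    exact LB_of hm (by rw [h8]) h4
  obtain ⟨S, hS0⟩ := Tv.exists (R := Sb (V := V) L) hT
  have hS := Tq.of_Sb hT hact L hS0
  have hsup : (⨆ v : V, Sb L v) = L := by
    simp only [hSb]
    exact hL.symm
  rw [hsup] at hS
  let _ := ga hS
  have hzL : ∃ n : ℤ, n ≠ 0 ∧ z ^ n ∈ L := by
    obtain ⟨n, hn, h1, h2, _⟩ := hE x0 y0 h0
    exact ⟨n, hn, hL ▸ le_iSup A x0 (hA.edg x0 y0 h0 _ h1 h2)⟩
  obtain ⟨n0, hn0, hzL⟩ := hzL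
  refine finedgeN (G := G) (V := S) (T := T.induce S) hC hAc hfg (hS.isTree hT) ?_ L ?_ 1 ?_ ?_ ?_
  · intro g s t hst
    exact sm_adj hact hS g s t hst
  · intro a ha s
    exact sm_eq hS ha rfl
  · intro s t hst F hF hFL
    refine Finset.card_le_one.2 fun g hg h hh => hFL g hg h hh ?_
    have key : ∀ g ∈ F, g ∈ L := by
      intro g hg
      obtain ⟨h1, h2⟩ := hF g hg
      have h1 : sm hS g s = s := h1
      have h2 : sm hS g t = t := h2
      obtain ⟨a, ha, h3⟩ := sm_spec hS g s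
      obtain ⟨b, hb, h4⟩ := sm_spec hS g t
      rw [h1] at h3
      rw [h2] at h4
      have hst' : T.Adj (s : V) (t : V) := hst
      have h5 : T.Adj (s : V) ((a⁻¹ * b) • (t : V)) := by
        have h6 := hact (a⁻¹ * g) _ _ hst'
        rw [mul_smul, h3, inv_smul_smul, mul_smul, h4, ← mul_smul] at h6
        exact h6
      obtain ⟨u, hu, h7, r, hr, h8, h9⟩ := hS.max _ s.2 _ h5
      have h10 : (⟨u, hu⟩ : S) = t := quq hS hr (mul_mem (inv_mem ha) hb) h9
      have h11 : u = (t : V) := congrArg Subtype.val h10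
      rw [h11] at h9
      have h12 : r⁻¹ * a⁻¹ * g ∈ A (s : V) := by
        refine hA.edg _ _ hst' _ ?_ ?_
        · rw [mul_smul, h3, mul_smul, inv_smul_smul, inv_smul_eq_iff, h8]
        · rw [mul_smul, h4, mul_smul, inv_smul_eq_iff, h9, mul_smul]
      have h13 : r⁻¹ * a⁻¹ * g ∈ L := hL ▸ le_iSup A (s : V) h12
      have h14 := mul_mem (mul_mem ha hr) h13
      have h15 : a * r * (r⁻¹ * a⁻¹ * g) = g := by group
      rwa [h15] at h14
    exact mul_mem (inv_mem (key g hg)) (key h hh)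
  · intro s
    obtain ⟨U, hU⟩ : ∃ U : Subgroup G, U = MulAction.stabilizer G s := ⟨_, rfl⟩
    rw [← hU]
    have hLU : L ≤ U := by
      rw [hU]
      intro a ha
      exact sm_eq hS ha rfl
    rcases hloc (s : V) with hlc | hcyc
    swap
    · exact stab_cyc hC hM (hAc.toF hC) hT hact hz (fun u v huv => by
        obtain ⟨n, hn, h1, h2, _⟩ := hE u v huv
        exact ⟨n, hn, h1, h2⟩) hEr hEt hV hA hcom hab hL hSb hS s hcyc U (fun g => by
        rw [hU]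
        exact Iff.rfl) h0
    rcases hlc with hlc | ⟨P, _, π, hP, hπ⟩
    swap
    · obtain ⟨ρ, hρ1, hρ2⟩ := retraction hT hact hA π (fun x hx => by
        rw [pt_eq π (hA.fix _ x hx)]
        exact (hπ _).2 hx)
      have hρL : ∀ x ∈ L, ρ x = 1 := by
        have h3 : (⨆ v, A v) ≤ ρ.ker := iSup_le fun w r hr => hρ1 w r hr
        exact fun x hx => h3 (hL ▸ hx)
      have hker : ∀ g ∈ U, ρ g = 1 → g ∈ L := by
        intro g hg h
        rw [hU] at hg
        have h1 : sm hS g s = s := hg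
        obtain ⟨a, ha, h3⟩ := sm_spec hS g s
        rw [h1] at h3
        have h4 : (a⁻¹ * g) • (s : V) = s := by rw [mul_smul, h3, inv_smul_smul]
        have h5 : pt π (a⁻¹ * g) = 1 := by
          rw [← hρ2 _ h4, map_mul, map_inv, hρL a ha, h, inv_one, one_mul]
        rw [pt_eq π h4, hπ] at h5
        have h6 : a⁻¹ * g ∈ L := hL ▸ le_iSup A (s : V) h5
        have h7 := mul_mem ha h6
        rwa [mul_inv_cancel_left] at h7
      refine sub_q hC hM (hAc.toF hC) hT hact hz hE hEr hEt hV hab hSb U hLU ?_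
      let f : U →* P := ρ.comp U.subtype
      have hf : ∀ g ∈ L.subgroupOf U, f g = 1 := fun g hg => hρL _ hg
      refine hC.base.of_injective _ _ (QuotientGroup.lift _ f hf) ?_ hP
      rw [injective_iff_map_eq_one]
      intro q hq
      obtain ⟨g, rfl⟩ := QuotientGroup.mk_surjective q
      exact (QuotientGroup.eq_one_iff g).2 (hker _ g.2 hq)
    have hULB : U ≤ LB z := by
      intro g hg
      rw [hU] at hg
      have h1 : sm hS g s = s := hg
      obtain ⟨a, ha, h3⟩ := sm_spec hS g s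
      rw [h1] at h3
      have h4 : a⁻¹ * g ∈ LB z := hlc (by
        show (a⁻¹ * g) • (s : V) = s
        rw [mul_smul, h3, inv_smul_smul])
      have h5 := mul_mem (hLLB ha) h4
      rwa [mul_inv_cancel_left] at h5
    refine balN (G := U) (V := V) (T := T) hC hM hAc hT (fun g u v h => hact g u v h)
      ⟨z ^ n0, hLU hzL⟩ ?_ ?_ ?_
    · intro g
      obtain ⟨m, k, hm, hmk, h⟩ := LB_out (hULB g.2)
      refine ⟨m, k, hm, hmk, Subtype.ext ?_⟩
      show (g : G) * (z ^ n0) ^ m * (g : G)⁻¹ = (z ^ n0) ^ k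
      rw [← zpow_mul, ← zpow_mul, mul_comm n0 m, mul_comm n0 k, zpow_mul, zpow_mul, ← h, conj_zpow]
    · intro u v huv
      obtain ⟨n, hn, h2, h3, h4⟩ := hE u v huv
      refine ⟨n, hn, ?_, ?_, ?_⟩
      · show (z ^ n0) ^ n • u = u
        rw [← zpow_mul, mul_comm, zpow_mul]
        exact zpow_fix h2 _
      · show (z ^ n0) ^ n • v = v
        rw [← zpow_mul, mul_comm, zpow_mul]
        exact zpow_fix h3 _
      · have h5 : Subgroup.zpowers ((⟨z ^ n0, hLU hzL⟩ : U) ^ n) =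
            (Subgroup.zpowers ((z ^ n0) ^ n)).comap U.subtype := zp_sub (H := U) _ _
        rw [h5, Subgroup.relIndex_comap, ← zpow_mul, mul_comm, zpow_mul]
        have h6 := relIndex_zpow (z ^ n) n0 hn0 _ h4
        refine fun h7 => h6 (Subgroup.relIndex_eq_zero_of_le_right ?_ h7)
        rintro _ ⟨g, ⟨hg1, hg2⟩, rfl⟩
        exact ⟨hg1, hg2⟩
    · intro w
      exact C_stab hC U w (hV w)
  · intro g
    obtain ⟨M, hMM⟩ : ∃ M : Subgroup G, M = L ⊔ Subgroup.zpowers g := ⟨_, rfl⟩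
    rw [← hMM]
    have hLM : L ≤ M := hMM ▸ le_sup_left
    have hcom' : C (M ⧸ L.subgroupOf M) := by
      refine C_comm hM ?_
      intro p q
      obtain ⟨⟨x, hx⟩, rfl⟩ := QuotientGroup.mk_surjective p
      obtain ⟨⟨y, hy⟩, rfl⟩ := QuotientGroup.mk_surjective q
      rw [← QuotientGroup.mk_mul, ← QuotientGroup.mk_mul]
      refine QuotientGroup.eq.2 ?_
      rw [Subgroup.mem_subgroupOf]
      rw [hMM] at hx hy
      obtain ⟨a, ha, _, ⟨i, rfl⟩, rfl⟩ := mem_sup_normal.1 hx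
      obtain ⟨b, hb, _, ⟨j, rfl⟩, rfl⟩ := mem_sup_normal.1 hy
      show (a * g ^ i * (b * g ^ j))⁻¹ * (b * g ^ j * (a * g ^ i)) ∈ L
      rw [← QuotientGroup.eq_one_iff]
      have h1 : (((a * g ^ i * (b * g ^ j))⁻¹ * (b * g ^ j * (a * g ^ i)) : G) : G ⧸ L) =
          (((a : G) : G ⧸ L) * (g : G ⧸ L) ^ i * ((b : G ⧸ L) * (g : G ⧸ L) ^ j))⁻¹ *
          ((b : G ⧸ L) * (g : G ⧸ L) ^ j * ((a : G ⧸ L) * (g : G ⧸ L) ^ i)) := rfl
      rw [h1, (QuotientGroup.eq_one_iff a).2 ha, (QuotientGroup.eq_one_iff b).2 hb, one_mul,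
        one_mul, ← zpow_add, ← zpow_add, add_comm j i, inv_mul_cancel]
    exact sub_q hC hM (hAc.toF hC) hT hact hz hE hEr hEt hV hab hSb M hLM hcom'

end unb

/-- an equivariant family -/
theorem exists_family' {G V : Type} [Group G] [MulAction G V] {T : SimpleGraph V}
    (hact : ∀ (g : G) (u v : V), T.Adj u v → T.Adj (g • u) (g • v)) {z : G}
    (hcom : ∀ g : G, ∃ m k : ℤ, m ≠ 0 ∧ k ≠ 0 ∧ g * z ^ m * g⁻¹ = z ^ k)
    (hed : ∀ u v : V, T.Adj u v → ∃ n : ℤ, n ≠ 0 ∧ z ^ n • u = u ∧ z ^ n • v = v)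
    (hNb : ∀ w : V, Nb' C T w z) :
    ∃ A : V → Subgroup G, Cov T A ∧ (∀ v, (MulAction.stabilizer G v ≤ LB z ∨
      ∃ (P : Type) (_ : Group P) (π : ↥(MulAction.stabilizer G v) →* P), C P ∧
        ∀ g : ↥(MulAction.stabilizer G v), π g = 1 ↔ (g : G) ∈ A v) ∨
        ∀ u, T.Adj v u → CyE G v u) ∧
      ∀ (v : V) (m : ℤ), m ≠ 0 → z ^ m ∉ ⁅A v, A v⁆ := by
  choose A0 h1 h2 h3 h4 h5 using hNb
  let s : Setoid V := MulAction.orbitRel G V
  obtain ⟨rep, hrep⟩ : ∃ rep : V → V, ∀ w, rep w = Quotient.out (Quotient.mk s w) :=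
    ⟨_, fun _ => rfl⟩
  have hex : ∀ w : V, ∃ g : G, g • rep w = w := by
    intro w
    have h6 : s (Quotient.out (Quotient.mk s w)) w := Quotient.mk_out w
    obtain ⟨g, hg⟩ := s.symm h6
    exact ⟨g, by rw [hrep]; exact hg⟩
  have hrg : ∀ (g : G) (w : V), rep (g • w) = rep w := by
    intro g w
    rw [hrep, hrep, show Quotient.mk s (g • w) = Quotient.mk s w from Quotient.sound ⟨g, rfl⟩]
  choose h hh using hex
  have hinv : ∀ w, (h w)⁻¹ • w = rep w := fun w => inv_smul_eq_iff.2 (hh w).symm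
  obtain ⟨A, hA⟩ : ∃ A : V → Subgroup G, ∀ w x, x ∈ A w ↔ (h w)⁻¹ * x * h w ∈ A0 (rep w) := by
    refine ⟨fun w => (A0 (rep w)).comap (MulAut.conj (h w)⁻¹).toMonoidHom, fun w x => ?_⟩
    show (h w)⁻¹ * x * (h w)⁻¹⁻¹ ∈ A0 (rep w) ↔ _
    rw [inv_inv]
  refine ⟨A, ⟨?_, ?_, ?_⟩, ?_, ?_⟩
  · intro w r hr
    have h6 := h1 _ _ ((hA w r).1 hr)
    rw [mul_smul, mul_smul, hh, inv_smul_eq_iff, hh] at h6
    exact h6
  · intro g w r hr
    rw [hA] at hr ⊢
    rw [hrg]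
    obtain ⟨t, ht⟩ : ∃ t : G, t = (h (g • w))⁻¹ * g * h w := ⟨_, rfl⟩
    have ht1 : t • rep w = rep w := by
      rw [ht, mul_smul, mul_smul, hh, hinv, hrg]
    obtain ⟨m, k, hm, hk, hmk⟩ := hcom t
    have h6 := h3 (rep w) t ht1 m k hm hk hmk _ hr
    have h7 : t * ((h w)⁻¹ * r * h w) * t⁻¹ = (h (g • w))⁻¹ * (g * r * g⁻¹) * h (g • w) := by
      rw [ht]
      group
    rwa [h7] at h6
  · intro v u hvu x hxv hxu
    rw [hA]
    have h6 : T.Adj (rep v) ((h v)⁻¹ • u) := by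
      have := hact (h v)⁻¹ _ _ hvu
      rwa [hinv] at this
    obtain ⟨n, hn, h7, h8⟩ := hed _ _ h6
    refine h2 (rep v) _ h6 n hn h7 h8 _ ?_ ?_
    · rw [mul_smul, mul_smul, hh, hxv, hinv]
    · rw [mul_smul, mul_smul, smul_inv_smul, hxu]
  · intro v
    rcases h5 (rep v) with h6 | h6
    swap
    · right
      intro u hvu
      have h7 : T.Adj (rep v) ((h v)⁻¹ • u) := by
        have := hact (h v)⁻¹ _ _ hvu
        rwa [hinv] at this
      obtain ⟨n, hn, h8, h9⟩ := hed _ _ h7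
      have h10 := (h6 _ h7 n hn h8 h9).conj (h v)
      rwa [hh, smul_inv_smul] at h10
    left
    rcases h6 with h6 | h6
    · left
      intro y hy
      have hy' : y • v = v := hy
      have h7 : ((h v)⁻¹ * y * h v) • rep v = rep v := by
        rw [mul_smul, mul_smul, hh, hy', hinv]
      obtain ⟨m, k, hm, hk, hmk⟩ := hcom ((h v)⁻¹ * y * h v)
      have h8 := LB_of hm (h6 _ h7 m k hm hmk) hmk
      have h9 := LB_conj (hcom (h v)) h8
      have h10 : h v * ((h v)⁻¹ * y * h v) * (h v)⁻¹ = y := by group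
      rwa [h10] at h9
    · right
      obtain ⟨P, _, f, hP, hf⟩ := h6 (MulAction.stabilizer G (rep v)) fun g hg => ⟨hg, hcom g⟩
      let c : ↥(MulAction.stabilizer G v) →* ↥(MulAction.stabilizer G (rep v)) :=
        ((MulAut.conj (h v)⁻¹).toMonoidHom.comp (MulAction.stabilizer G v).subtype).codRestrict _
          (by
            rintro ⟨y, hy⟩
            have hy' : y • v = v := hy
            show ((h v)⁻¹ * y * (h v)⁻¹⁻¹) • rep v = rep v
            rw [inv_inv, mul_smul, mul_smul, hh, hy', hinv])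
      refine ⟨P, _, f.comp c, hP, fun g => ?_⟩
      rw [hA]
      refine (hf (c g)).trans ?_
      show (h v)⁻¹ * g * (h v)⁻¹⁻¹ ∈ A0 (rep v) ↔ _
      rw [inv_inv]
  · intro v m hm hzm
    obtain ⟨a, b, ha, hb, hab⟩ := hcom (h v)⁻¹
    refine h4 (rep v) (b * m) (mul_ne_zero hb hm) ?_
    have h6 : (⁅A v, A v⁆).map (MulAut.conj (h v)⁻¹).toMonoidHom ≤ ⁅A0 (rep v), A0 (rep v)⁆ := by
      rw [Subgroup.map_commutator]
      have h7 : (A v).map (MulAut.conj (h v)⁻¹).toMonoidHom ≤ A0 (rep v) := by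
        rintro _ ⟨y, hy, rfl⟩
        have h8 := (hA v y).1 hy
        show (h v)⁻¹ * y * (h v)⁻¹⁻¹ ∈ A0 (rep v)
        rwa [inv_inv]
      exact Subgroup.commutator_mono h7 h7
    have h7 : (h v)⁻¹ * z ^ m * (h v)⁻¹⁻¹ ∈ ⁅A0 (rep v), A0 (rep v)⁆ := h6 ⟨_, hzm, rfl⟩
    have h8 := Subgroup.zpow_mem _ h7 a
    rwa [conj_zpow, ← zpow_mul, mul_comm, zpow_mul, ← conj_zpow, hab, ← zpow_mul] at h8

/-- groups in which all edge stabilizers are commensurable with `⟨z⟩` -/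
theorem cylN' (hC : ClosedE C) (hM : ∀ (G : Type) [Group G], derivedSeries G 2 = ⊥ → C G)
    (hA : AcylN C) {K W : Type} [Group K] [MulAction K W] {T : SimpleGraph W} (hT : T.IsTree)
    (hact : ∀ (g : K) (u v : W), T.Adj u v → T.Adj (g • u) (g • v)) {z : K} (hz : Inf z)
    (hcom : ∀ g : K, ∃ m k : ℤ, m ≠ 0 ∧ k ≠ 0 ∧ g * z ^ m * g⁻¹ = z ^ k)
    (hE : ∀ u v : W, T.Adj u v → ∃ n : ℤ, n ≠ 0 ∧ z ^ n • u = u ∧ z ^ n • v = v ∧
      (Subgroup.zpowers (z ^ n)).relIndex (MulAction.stabilizer K u ⊓ MulAction.stabilizer K v) ≠ 0)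
    (hV : ∀ v : W, C ↥(MulAction.stabilizer K v))
    (hEr : ∀ u v : W, T.Adj u v → Er K u v) (hEt : ∀ u v : W, T.Adj u v → ∃ n, Et K n u v)
    (hx : (∀ (g : K) (m k : ℤ), m ≠ 0 → g * z ^ m * g⁻¹ = z ^ k → |m| = |k|) ∨
      ∀ v u : W, T.Adj v u → Nb' C T v z) : C K := by
  rcases hx with hx | hx
  · refine balN hC hM hA hT hact z ?_ hE hV
    intro g
    obtain ⟨m, k, hm, hk, h⟩ := hcom g
    exact ⟨m, k, hm, hx g m k hm h, h⟩
  refine of_fg_mem hC z fun H hfg hzH => ?_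
  obtain ⟨o⟩ := hT.connected.nonempty
  obtain ⟨W', _, T', ι, Φ, hW, ⟨w0, hw0⟩, hΦ, hΦ'⟩ := fg_subtree (G := H) hT
    (fun g u v h => hact g u v h) hfg o
  have hV' : ∀ w : W', C ↥(MulAction.stabilizer H w) := by
    intro w
    rw [hW.stab w]
    exact C_stab hC H (ι w) (hV _)
  by_cases hne : ∃ x y, T'.Adj x y
  swap
  · push Not at hne
    exact kfin hC hM (hA.toF hC) hW.tree hW.act (1 : H →* Multiplicative ℤ) hC.base.int hV'
      fun u v huv => absurd huv (hne u v)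
  obtain ⟨x0, y0, h0⟩ := hne
  have hcomH : ∀ g : H, ∃ m k : ℤ, m ≠ 0 ∧ k ≠ 0 ∧
      g * (⟨z, hzH⟩ : H) ^ m * g⁻¹ = (⟨z, hzH⟩ : H) ^ k := by
    intro g
    obtain ⟨m, k, hm, hk, h⟩ := hcom g
    exact ⟨m, k, hm, hk, Subtype.ext h⟩
  obtain ⟨A, hcov, hloc, hab⟩ := exists_family' (C := C) (G := H) (V := W') (T := T') hW.act
    (z := ⟨z, hzH⟩) hcomH (fun u v huv => by
      obtain ⟨n, hn, h1, h2, _⟩ := hE _ _ (hW.adj _ _ huv)
      exact ⟨n, hn, hW.fix.2 h1, hW.fix.2 h2⟩) (fun w => by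
      obtain ⟨w', hw'⟩ := exists_nbr hW.tree h0 w
      exact Nb'.sub hW (hx _ _ (hW.adj _ _ hw')))
  refine unb_fg' (G := H) (V := W') (T := T') hC hM hA hfg hW.tree hW.act (z := ⟨z, hzH⟩)
    (Inf.of_map H.subtype hz) ?_ ?_ ?_ hV' hcov hcomH hloc hab
  · intro u v huv
    obtain ⟨n, hn, h1, h2, h3⟩ := hE _ _ (hW.adj _ _ huv)
    refine ⟨n, hn, hW.fix.2 h1, hW.fix.2 h2, ?_⟩
    have h5 : Subgroup.zpowers ((⟨z, hzH⟩ : H) ^ n) =
        (Subgroup.zpowers (z ^ n)).comap H.subtype := zp_sub _ _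
    rw [h5, Subgroup.relIndex_comap]
    refine fun h6 => h3 (Subgroup.relIndex_eq_zero_of_le_right ?_ h6)
    rintro _ ⟨g, ⟨hg1, hg2⟩, rfl⟩
    exact ⟨hW.fix.1 hg1, hW.fix.1 hg2⟩
  · intro u v huv
    exact (hEr _ _ (hW.adj _ _ huv)).sub hW
  · intro u v huv
    obtain ⟨n, hn⟩ := hEt _ _ (hW.adj _ _ huv)
    exact ⟨n, hn.sub'.sub hW⟩

/-- the alternative for `x` -/
def Alt' (C : ∀ (G : Type) [Group G], Prop) {G V : Type} [Group G] [MulAction G V]
    (T : SimpleGraph V) (x : G) : Prop :=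
  (∀ (g : G) (m k : ℤ), m ≠ 0 → g * x ^ m * g⁻¹ = x ^ k → |m| = |k|) ∨
    ∀ v u : V, T.Adj v u → ∀ n : ℤ, n ≠ 0 → x ^ n • v = v → x ^ n • u = u → Nb' C T v x

theorem Alt'.sub {G V W : Type} [Group G] [MulAction G V] {T : SimpleGraph V} {H : Subgroup G}
    [MulAction H W] {T' : SimpleGraph W} {ι : W → V} (h : STree H T T' ι) {x : H}
    (hx : Alt' C T (x : G)) : Alt' C T' x := by
  rcases hx with hx | hx
  · left
    intro g m k hm hgx
    exact hx g m k hm (congrArg Subtype.val hgx)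
  · right
    intro v u hvu n hn hv hu
    exact Nb'.sub h (hx _ _ (h.adj _ _ hvu) n hn (h.fix.1 hv) (h.fix.1 hu))

/-- the case of finitely generated groups -/
theorem alt_fg' (hC : ClosedE C) (hM : ∀ (G : Type) [Group G], derivedSeries G 2 = ⊥ → C G)
    (hA : AcylN C) {G V : Type} [Group G] [MulAction G V] {T : SimpleGraph V} (hfg : Group.FG G)
    (hT : T.IsTree) (hact : ∀ (g : G) (u v : V), T.Adj u v → T.Adj (g • u) (g • v))
    (hV : ∀ v : V, C ↥(MulAction.stabilizer G v))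
    (hEr : ∀ u v : V, T.Adj u v → Er G u v) (n : ℕ) (hEt : ∀ u v : V, T.Adj u v → Et G n u v)
    (hFi : ∀ u v : V, T.Adj u v → Fi G u v)
    (hx : ∀ v u : V, T.Adj v u → ∀ x : G, x • v = v → x • u = u → Inf x → Alt' C T x) :
    C G := by
  refine cylI_fg hC (hA.toF hC) hfg hT hact hEr n hEt hV ?_
  intro v0 a0 h0 z hz hzv hza K hK hzK
  obtain ⟨hd1, hd2⟩ := cyl_data hEr hact h0 hz hzv hza
  obtain ⟨W, _, T', ι, hW, hcyl⟩ := cyl_subtree hT hact (rI_LR hEr) (cy (rI G) h0) K hK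
  have hzi : Inf (⟨z, hzK⟩ : K) := Inf.of_map K.subtype hz
  have hedge : ∀ u v : W, T'.Adj u v → ∃ n : ℤ, n ≠ 0 ∧ (⟨z, hzK⟩ : K) ^ n • u = u ∧
      (⟨z, hzK⟩ : K) ^ n • v = v := by
    intro u v huv
    have h3 := hW.adj _ _ huv
    obtain ⟨k, hk, h4, h5⟩ := hd2 _ _ h3 (hcyl u v huv h3)
    exact ⟨k, hk, hW.fix.2 h4, hW.fix.2 h5⟩
  refine cylN' (K := K) (W := W) (T := T') hC hM hA hW.tree hW.act hzi ?_ ?_ ?_ ?_ ?_ ?_
  · intro g
    obtain ⟨m, k, hm, hk, h⟩ := hd1 g (hK g g.2)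
    exact ⟨m, k, hm, hk, Subtype.ext h⟩
  · intro u v huv
    obtain ⟨k, hk, h4, h5⟩ := hedge u v huv
    exact ⟨k, hk, h4, h5, (hFi _ _ (hW.adj _ _ huv)).sub hW _ h4 h5 (hzi.zpow hk)⟩
  · intro w
    rw [hW.stab w]
    exact C_stab hC K (ι w) (hV _)
  · intro u v huv
    exact (hEr _ _ (hW.adj _ _ huv)).sub hW
  · intro u v huv
    exact ⟨n, (hEt _ _ (hW.adj _ _ huv)).sub'.sub hW⟩
  · rcases (hx v0 a0 h0 z hzv hza hz).sub hW (x := ⟨z, hzK⟩) with h1 | h1
    · exact Or.inl h1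
    · right
      intro v u hvu
      obtain ⟨k, hk, h4, h5⟩ := hedge v u hvu
      exact h1 v u hvu k hk h4 h5

/-- **trees with virtually cyclic edge stabilizers** -/
theorem alt' (hC : ClosedE C) (hM : ∀ (G : Type) [Group G], derivedSeries G 2 = ⊥ → C G)
    (hA : AcylN C) {G V : Type} [Group G] [MulAction G V] {T : SimpleGraph V}
    (hT : T.IsTree) (hact : ∀ (g : G) (u v : V), T.Adj u v → T.Adj (g • u) (g • v))
    (hV : ∀ v : V, C ↥(MulAction.stabilizer G v))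
    (hEr : ∀ u v : V, T.Adj u v → Er G u v) (hEt : ∀ u v : V, T.Adj u v → ∃ n : ℕ, Et G n u v)
    (hFi : ∀ u v : V, T.Adj u v → Fi G u v)
    (hx : ∀ v u : V, T.Adj v u → ∀ x : G, x • v = v → x • u = u → Inf x → Alt' C T x) :
    C G := by
  refine of_fg hC fun H hfg => ?_
  obtain ⟨o⟩ := hT.connected.nonempty
  have hactH : ∀ (g : H) (u v : V), T.Adj u v → T.Adj (g • u) (g • v) := fun g u v h => hact g u v h
  obtain ⟨W, _, T', ι, Φ, hW, _, hΦ, hΦ'⟩ := fg_subtree (G := H) hT hactH hfg o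
  obtain ⟨n, hn⟩ := uniform (G := H) (T := T) (T' := T') (ι := ι) (Φ := Φ)
    (fun u v n => Et H n u v) hΦ hΦ' (fun u v n n' h h' => h'.mono h) (fun u v n h => h.symm)
    (fun h u v n h' => h'.inv h) (fun u v huv => by
      obtain ⟨n, hn⟩ := hEt u v huv
      exact ⟨n, hn.sub'⟩)
  refine alt_fg' (G := H) (V := W) (T := T') hC hM hA hfg hW.tree hW.act ?_ ?_ n ?_ ?_ ?_
  · intro w
    rw [hW.stab w]
    exact C_stab hC H (ι w) (hV _)
  · intro u v huv
    exact (hEr _ _ (hW.adj _ _ huv)).sub hW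
  · intro u v huv
    exact (hn u v huv).sub hW
  · intro u v huv
    exact (hFi _ _ (hW.adj _ _ huv)).sub hW
  · intro v u hvu x hxv hxu hxi
    exact (hx _ _ (hW.adj _ _ hvu) x (hW.fix.1 hxv) (hW.fix.1 hxu)
      (hxi.map H.subtype H.subtype_injective)).sub hW

/-- **trees with virtually cyclic edge stabilizers** -/
theorem alt_vc' (hC : ClosedE C) (hM : ∀ (G : Type) [Group G], derivedSeries G 2 = ⊥ → C G)
    (hA : AcylN C) {G V : Type} [Group G] [MulAction G V] {T : SimpleGraph V}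
    (hT : T.IsTree) (hact : ∀ (g : G) (u v : V), T.Adj u v → T.Adj (g • u) (g • v))
    (hV : ∀ v : V, C ↥(MulAction.stabilizer G v))
    (hE : ∀ u v : V, T.Adj u v → VC ↥(MulAction.stabilizer G u ⊓ MulAction.stabilizer G v))
    (hx : ∀ v u : V, T.Adj v u → ∀ x : G, x • v = v → x • u = u → Inf x → Alt' C T x) :
    C G := by
  refine alt' hC hM hA hT hact hV (fun u v huv => (vc_edge (hE u v huv)).1)
    (fun u v huv => (vc_edge (hE u v huv)).2) ?_ hx
  intro u v huv x hxu hxv hxi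
  have h1 : Inf (⟨x, hxu, hxv⟩ : ↥(MulAction.stabilizer G u ⊓ MulAction.stabilizer G v)) :=
    Inf.of_map (Subgroup.subtype _) hxi
  have h2 := (hE u v huv).index h1
  have h3 : Subgroup.zpowers (⟨x, hxu, hxv⟩ : ↥(MulAction.stabilizer G u ⊓
      MulAction.stabilizer G v)) = (Subgroup.zpowers x).subgroupOf
      (MulAction.stabilizer G u ⊓ MulAction.stabilizer G v) := by
    ext g
    rw [Subgroup.mem_subgroupOf]
    constructor
    · rintro ⟨i, rfl⟩
      exact ⟨i, rfl⟩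
    · rintro ⟨i, hi⟩
      exact ⟨i, Subtype.ext hi⟩
  rw [h3] at h2
  exact h2

end Pool.Agent.H4.CS
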