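import Pool.Agent.H4.CS.Main

/-!
# Vertex groups in which the elements commensurable with a given element are detected
-/

set_option autoImplicit false

namespace Pool.Agent.H4.CS

open SimpleGraph
open Pool.Agent.Y110.FJ
open Pool.Agent.N509.TK
open Pool.Agent.N509.TX
open Pool.Agent.N509.OM

/-- the subgroup generated by the stabilizers of the edges at `v` which are fixed by a nonzero power
of `x` -/
def EdgeGp {G V : Type} [Group G] [MulAction G V] (T : SimpleGraph V) (v : V) (x : G) :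
    Subgroup G :=
  Subgroup.closure {y | ∃ u, T.Adj v u ∧ y • v = v ∧ y • u = u ∧
    ∃ n : ℤ, n ≠ 0 ∧ x ^ n • v = v ∧ x ^ n • u = u}

/-- the subgroup generated by the elements which have a nonzero power in common with `c` -/
def ComGp {G : Type} [Group G] (c : G) : Subgroup G :=
  Subgroup.closure {y | ∃ m n : ℤ, m ≠ 0 ∧ n ≠ 0 ∧ y ^ m = c ^ n}

/-- elements of infinite order have infinite order in the abelianization of the group generated by the
elements which have a nonzero power in common with them -/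
def Detected (G : Type) [Group G] : Prop :=
  ∀ c : G, Inf c → ∀ m : ℤ, m ≠ 0 → c ^ m ∉ ⁅ComGp c, ComGp c⁆

/-- roots are unique -/
def UniqueRoots (G : Type) [Group G] : Prop := ∀ (a b : G) (n : ℕ), 0 < n → a ^ n = b ^ n → a = b

theorem UniqueRoots.zpow {G : Type} [Group G] (h : UniqueRoots G) {a b : G} {n : ℤ} (hn : n ≠ 0)
    (hab : a ^ n = b ^ n) : a = b := by
  refine h a b n.natAbs (Int.natAbs_pos.2 hn) ?_
  rcases Int.natAbs_eq n with h1 | h1
  · rw [h1, zpow_natCast, zpow_natCast] at hab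
    exact hab
  · rw [h1, zpow_neg, zpow_neg, inv_inj, zpow_natCast, zpow_natCast] at hab
    exact hab

theorem closure_comm {G : Type} [Group G] {S : Set G} (h : ∀ x ∈ S, ∀ y ∈ S, x * y = y * x) :
    ⁅Subgroup.closure S, Subgroup.closure S⁆ = ⊥ := by
  have hc : ∀ x ∈ Subgroup.closure S, ∀ y ∈ Subgroup.closure S, x * y = y * x := by
    intro x hx y hy
    exact (Subgroup.closure_le_centralizer_centralizer S hx) y
      (Subgroup.closure_le _ |>.2 (fun z hz => Subgroup.mem_centralizer_iff.2 fun w hw =>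
        h w hw z hz) hy) |>.symm
  rw [Subgroup.commutator_eq_bot_iff_le_centralizer]
  intro x hx
  rw [Subgroup.mem_centralizer_iff]
  intro y hy
  exact hc y hy x hx

theorem UniqueRoots.detected {G : Type} [Group G] (h : UniqueRoots G) : Detected G := by
  intro c hc m hm
  have h1 : ⁅ComGp c, ComGp c⁆ = ⊥ := by
    refine closure_comm ?_
    rintro x ⟨a, b, ha, hb, hab⟩ y ⟨a', b', ha', hb', hab'⟩
    have e1 : x ^ (a * b') = y ^ (a' * b) := by
      rw [zpow_mul, hab, ← zpow_mul, zpow_mul y, hab', ← zpow_mul, mul_comm]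
    have e2 : Commute x (y ^ (a' * b)) := by
      rw [← e1]
      exact (Commute.refl x).zpow_right _
    have e3 : (x * y * x⁻¹) ^ (a' * b) = y ^ (a' * b) := by
      rw [conj_zpow, e2.eq, mul_inv_cancel_right]
    have e4 := h.zpow (mul_ne_zero ha' hb) e3
    rwa [mul_inv_eq_iff_eq_mul] at e4
  rw [h1, Subgroup.mem_bot]
  exact hc m hm

variable {C : ∀ (G : Type) [Group G], Prop}

/-- the subgroup generated by the edge stabilizers satisfies the conditions -/
theorem Nb'.of_edge {G V : Type} [Group G] [MulAction G V] {T : SimpleGraph V}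
    (hact : ∀ (g : G) (u v : V), T.Adj u v → T.Adj (g • u) (g • v)) {v : V} {x : G}
    (h : ∀ m : ℤ, m ≠ 0 → x ^ m ∉ ⁅EdgeGp T v x, EdgeGp T v x⁆)
    (hc : ∀ u : V, T.Adj v u → ∀ n : ℤ, n ≠ 0 → x ^ n • v = v → x ^ n • u = u → CyE G v u) :
    Nb' C T v x := by
  refine ⟨EdgeGp T v x, ?_, ?_, ?_, h, Or.inr hc⟩
  · have h1 : EdgeGp T v x ≤ MulAction.stabilizer G v := by
      unfold EdgeGp
      rw [Subgroup.closure_le]
      rintro y ⟨u, _, hy, _⟩
      exact hy
    exact fun a ha => h1 ha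
  · intro u hu n hn h1 h2 y hy1 hy2
    exact Subgroup.subset_closure ⟨u, hu, hy1, hy2, n, hn, h1, h2⟩
  · intro g hg m k hm hk hgx a ha
    have h1 : EdgeGp T v x ≤ (EdgeGp T v x).comap (MulAut.conj g).toMonoidHom := by
      conv_lhs => unfold EdgeGp
      rw [Subgroup.closure_le]
      rintro y ⟨u, hu, hy1, hy2, n, hn, h1, h2⟩
      show g * y * g⁻¹ ∈ EdgeGp T v x
      have hg' : g⁻¹ • v = v := inv_smul_eq_iff.2 hg.symm
      refine Subgroup.subset_closure ⟨g • u, ?_, ?_, ?_, k * n, mul_ne_zero hk hn, ?_, ?_⟩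
      · have := hact g v u hu
        rwa [hg] at this
      · rw [mul_smul, mul_smul, hg', hy1, hg]
      · rw [mul_smul, mul_smul, inv_smul_smul, hy2]
      · rw [zpow_mul, ← hgx, conj_zpow, mul_smul, mul_smul, hg', ← zpow_mul, mul_comm, zpow_mul]
        have h3 : x ^ n ∈ MulAction.stabilizer G v := h1
        have h4 : (x ^ n) ^ m • v = v := Subgroup.zpow_mem _ h3 m
        rw [h4, hg]
      · rw [zpow_mul, ← hgx, conj_zpow, mul_smul, mul_smul, inv_smul_smul, ← zpow_mul, mul_comm,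
          zpow_mul]
        have h3 : x ^ n ∈ MulAction.stabilizer G u := h2
        have h4 : (x ^ n) ^ m • u = u := Subgroup.zpow_mem _ h3 m
        rw [h4]
    exact h1 ha

/-- the edge stabilizers at a vertex with detected elements -/
theorem Nb'.of_detected {G V : Type} [Group G] [MulAction G V] {T : SimpleGraph V}
    (hact : ∀ (g : G) (u v : V), T.Adj u v → T.Adj (g • u) (g • v)) {v : V} {x : G}
    (hx : Inf x) (hD : Detected ↥(MulAction.stabilizer G v))
    (hc : ∀ u : V, T.Adj v u → CyE G v u) {n0 : ℤ} (hn0 : n0 ≠ 0) (hxv : x ^ n0 • v = v) :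
    Nb' C T v x := by
  refine Nb'.of_edge hact ?_ (fun u hu _ _ _ _ => hc u hu)
  intro m hm hxm
  obtain ⟨c, hcc⟩ : ∃ c : ↥(MulAction.stabilizer G v), (c : G) = x ^ n0 := ⟨⟨x ^ n0, hxv⟩, rfl⟩
  have hci : Inf c := by
    refine Inf.of_map (Subgroup.subtype _) ?_
    show Inf (c : G)
    rw [hcc]
    exact hx.zpow hn0
  refine hD c hci m hm ?_
  have h1 : EdgeGp T v x ≤ (ComGp c).map (Subgroup.subtype _) := by
    unfold EdgeGp
    rw [Subgroup.closure_le]
    rintro y ⟨u, hu, hy1, hy2, n, hn, h1, h2⟩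
    by_cases hy : y = 1
    · exact ⟨1, (ComGp c).one_mem, hy.symm⟩
    obtain ⟨d, hd1, hd2, hd3⟩ := hc u hu
    obtain ⟨i, hi⟩ := hd3 y hy1 hy2
    obtain ⟨j, hj⟩ := hd3 _ h1 h2
    have hi' : d ^ i = y := hi
    have hj' : d ^ j = x ^ n := hj
    have hi0 : i ≠ 0 := by
      rintro rfl
      exact hy (by rw [← hi', zpow_zero])
    have hj0 : j ≠ 0 := by
      rintro rfl
      exact hx n hn (by rw [← hj', zpow_zero])
    refine ⟨⟨y, hy1⟩, Subgroup.subset_closure ⟨j * n0, i * n, mul_ne_zero hj0 hn0,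
      mul_ne_zero hi0 hn, Subtype.ext ?_⟩, rfl⟩
    show y ^ (j * n0) = (c : G) ^ (i * n)
    rw [hcc, ← hi', ← zpow_mul, ← zpow_mul, ← mul_assoc, zpow_mul, mul_comm i j, zpow_mul, hj',
      ← zpow_mul, ← zpow_mul]
    congr 1
    ring
  have h2 : x ^ (m * n0) ∈ (⁅ComGp c, ComGp c⁆).map (Subgroup.subtype _) := by
    rw [Subgroup.map_commutator]
    refine Subgroup.commutator_mono h1 h1 ?_
    rw [zpow_mul]
    exact Subgroup.zpow_mem _ hxm n0
  obtain ⟨y, hy, hy'⟩ := h2
  have h3 : y = c ^ m := by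
    apply Subtype.ext
    have hy'' : (y : G) = x ^ (m * n0) := hy'
    show (y : G) = (c : G) ^ m
    rw [hy'', hcc, ← zpow_mul, mul_comm]
  rwa [h3] at hy

end Pool.Agent.H4.CS
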