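import Pool.Agent.H4.CS.Base

/-!
# The stabilizers of the vertices of the tree of orbits
-/

set_option autoImplicit false

namespace Pool.Agent.H4.CS

open SimpleGraph
open Pool.Agent.Y110.FJ
open Pool.Agent.N509.TK
open Pool.Agent.N509.TX
open Pool.Agent.N509.OM
open Pool.Agent.N24.TR (gam gam_mul gam_self)
open Pool.Agent.X176.FJ (IsDiv exists_div)

variable {C : ∀ (G : Type) [Group G], Prop}

section fixnbr

variable {G V : Type} {T : SimpleGraph V} [Group G] [MulAction G V] {A : V → Subgroup G}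
  {L : Subgroup G} {S : Set V}

/-- the elements which fix two adjacent vertices of the tree of orbits -/
theorem fix_nbr (hact : ∀ (g : G) (u v : V), T.Adj u v → T.Adj (g • u) (g • v)) (hA : Cov T A)
    (hAL : ∀ v, A v ≤ L) (hS : Tq T L S) {s t : S} (hst : T.Adj (s : V) (t : V)) {g : G}
    (h1 : sm hS g s = s) (h2 : sm hS g t = t) : g ∈ L := by
  obtain ⟨a, ha, h3⟩ := sm_spec hS g s
  obtain ⟨b, hb, h4⟩ := sm_spec hS g t
  rw [h1] at h3
  rw [h2] at h4
  have h5 : T.Adj (s : V) ((a⁻¹ * b) • (t : V)) := by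
    have h6 := hact (a⁻¹ * g) _ _ hst
    rw [mul_smul, h3, inv_smul_smul, mul_smul, h4, ← mul_smul] at h6
    exact h6
  obtain ⟨u, hu, h7, r, hr, h8, h9⟩ := hS.max _ s.2 _ h5
  have h10 : (⟨u, hu⟩ : S) = t := quq hS hr (mul_mem (inv_mem ha) hb) h9
  have h11 : u = (t : V) := congrArg Subtype.val h10
  rw [h11] at h9
  have h12 : r⁻¹ * a⁻¹ * g ∈ A (s : V) := by
    refine hA.edg _ _ hst _ ?_ ?_
    · rw [mul_smul, h3, mul_smul, inv_smul_smul, inv_smul_eq_iff, h8]
    · rw [mul_smul, h4, mul_smul, inv_smul_eq_iff, h9, mul_smul]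
  have h13 : r⁻¹ * a⁻¹ * g ∈ L := hAL _ h12
  have h14 := mul_mem (mul_mem ha hr) h13
  have h15 : a * r * (r⁻¹ * a⁻¹ * g) = g := by group
  rwa [h15] at h14

end fixnbr

variable {G V : Type} {T : SimpleGraph V} [Group G] [MulAction G V] {A : V → Subgroup G}

/-- **the stabilizers of the vertices of the tree of orbits**, if the edge stabilizers at the vertex are
cyclic -/
theorem stab_cyc (hC : ClosedE C) (hM : ∀ (G : Type) [Group G], derivedSeries G 2 = ⊥ → C G)
    (hAc : AcylF C) (hT : T.IsTree)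
    (hact : ∀ (g : G) (u v : V), T.Adj u v → T.Adj (g • u) (g • v)) {z : G} (hz : Inf z)
    (hE : ∀ u v : V, T.Adj u v → ∃ n : ℤ, n ≠ 0 ∧ z ^ n • u = u ∧ z ^ n • v = v)
    (hEr : ∀ u v : V, T.Adj u v → Er G u v) (hEt : ∀ u v : V, T.Adj u v → ∃ n, Et G n u v)
    (hV : ∀ v : V, C ↥(MulAction.stabilizer G v)) (hA : Cov T A)
    (hcom : ∀ g : G, ∃ m k : ℤ, m ≠ 0 ∧ k ≠ 0 ∧ g * z ^ m * g⁻¹ = z ^ k)
    (hab : ∀ v : V, ∀ m : ℤ, m ≠ 0 → z ^ m ∉ ⁅A v, A v⁆) {L : Subgroup G} [hLn : L.Normal]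
    (hL : L = ⨆ v, A v) (hSb : ∀ v, Sb L v = A v) {S : Set V} (hS : Tq T L S) (s : S)
    (hcyc : ∀ u : V, T.Adj (s : V) u → ∃ c : G, c • (s : V) = s ∧ c • u = u ∧
      ∀ y : G, y • (s : V) = s → y • u = u → y ∈ Subgroup.zpowers c)
    (U : Subgroup G) (hU : ∀ g, g ∈ U ↔ sm hS g s = s) {x0 y0 : V} (h0 : T.Adj x0 y0) : C U := by
  classical
  have hAL : ∀ v, A v ≤ L := fun v => hL ▸ le_iSup A v
  let _ := ga hS
  have hsm : ∀ (g : G) (t : S), g • t = sm hS g t := fun _ _ => rfl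
  have hLU : L ≤ U := fun a ha => (hU a).2 (sm_eq hS ha rfl)
  have hLt : ∀ a ∈ L, ∀ t : S, sm hS a t = t := fun a ha t => sm_eq hS ha rfl
  -- the character
  obtain ⟨n0, hn0, hz1, hz2⟩ := hE x0 y0 h0
  have hzL : z ^ n0 ∈ L := hAL x0 (hA.edg x0 y0 h0 _ hz1 hz2)
  have hsupL : (⨆ v : V, Sb L v) = L := by
    simp only [hSb]
    exact hL.symm
  have hinf : ∀ v u, T.Adj v u → ∀ x ∈ Sb L v, x ∈ Sb L u → Inf x → x ∉ ⁅Sb L v, Sb L v⁆ := by
    intro v u hvu x hxv hxu hxi hx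
    obtain ⟨n, hn, h3, h4⟩ := hE v u hvu
    obtain ⟨a, b, ha, hb, hab'⟩ := hEr v u hvu x (z ^ n) hxv.1 hxu.1 h3 h4 hxi (hz.zpow hn)
    rw [hSb] at hx
    refine hab v (n * b) (mul_ne_zero hn hb) ?_
    rw [zpow_mul, ← hab']
    exact Subgroup.zpow_mem _ hx a
  obtain ⟨f, hf, hf1⟩ : ∃ f : G → ℚ, QHom L f ∧ f (z ^ n0) = 1 := by
    refine sepQ L hzL (fun k hk => ?_) 1
    have h3 := h1q hT hact L (fun v u hvu x y h1 h2 h3 h4 h5 h6 =>
      hEr v u hvu x y h1.1 h2.1 h3.1 h4.1 h5 h6) hinf x0 (x := (z ^ n0) ^ k)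
      ((Sb L x0).zpow_mem (by rw [hSb]; exact hA.edg x0 y0 h0 _ hz1 hz2) k) (by
        intro k' hk'
        rw [hSb, ← zpow_mul, ← zpow_mul]
        exact hab x0 _ (by simp [hn0, hk, hk']))
    rwa [hsupL] at h3
  have hfz : ∀ k : ℤ, k ≠ 0 → z ^ k ∈ L → f (z ^ k) ≠ 0 := by
    intro k hk hkL h3
    have h4 := hf.zpow hkL n0
    have h5 := hf.zpow hzL k
    rw [← zpow_mul] at h4 h5
    rw [mul_comm k n0, h5, h3, hf1] at h4
    have h6 : (k : ℚ) = 0 := by linarith
    exact hk (by exact_mod_cast h6)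
  -- the divisible group
  obtain ⟨D, _, ι, hD, hι, hdiv, -⟩ := exists_div hC ↥(MulAction.stabilizer G (s : V)) (hV s)
  -- classes of vertices
  choose l hl r' hr' hlr using hS.cover
  obtain ⟨r, hr⟩ : ∃ r : V → S, ∀ w, (r w : V) = r' w := ⟨fun w => ⟨r' w, hr' w⟩, fun _ => rfl⟩
  have hlr : ∀ w, l w • (r w : V) = w := fun w => by rw [hr]; exact (hlr w).symm
  have hrq : ∀ (a : G) (_ : a ∈ L) (w : V) (t : S), a • (t : V) = w → r w = t := by
    intro a ha w t h3
    refine quq hS (hl w) ha ?_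
    rw [h3, hlr]
  have hrS : ∀ t : S, r t = t := fun t => hrq 1 L.one_mem t t (one_smul _ _)
  have hrsm : ∀ (g : G) (w : V), r (g • w) = sm hS g (r w) := by
    intro g w
    obtain ⟨a, ha, h3⟩ := sm_spec hS g (r w)
    refine hrq (g * l w * g⁻¹ * a) (mul_mem (hLn.conj_mem _ (hl w) g) ha) _ _ ?_
    rw [mul_smul, ← h3, ← mul_smul, inv_mul_cancel_right, mul_smul, hlr]
  have hrL : ∀ a ∈ L, ∀ w, r (a • w) = r w := fun a ha w => by rw [hrsm, hLt a ha]
  have hradj : ∀ u v : V, T.Adj u v → T.Adj (r u : V) (r v : V) ∧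
      ∃ a ∈ L, a • (r u : V) = u ∧ a • (r v : V) = v := by
    intro u v huv
    have h3 : T.Adj (r u : V) ((l u)⁻¹ • v) := by
      have h4 := hact (l u)⁻¹ _ _ huv
      rwa [inv_smul_eq_iff.2 (hlr u).symm] at h4
    obtain ⟨w, hw, h5, a, ha, h6, h7⟩ := hS.max _ (r u).2 _ h3
    have h8 : l u * a ∈ L := mul_mem (hl u) ha
    have h9 : (l u * a) • w = v := by rw [mul_smul, h7, smul_inv_smul]
    have h10 : r v = ⟨w, hw⟩ := hrq _ h8 v ⟨w, hw⟩ h9
    refine ⟨by rw [h10]; exact h5, l u * a, h8, ?_, ?_⟩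
    · rw [mul_smul, h6, hlr]
    · rw [h10]
      exact h9
  -- the directions at `s`
  have hTS := hS.isTree hT
  obtain ⟨B, hB⟩ : ∃ B : V → S, ∀ w, r w ≠ s → St (T.induce S) s (B w) (r w) := by
    have h3 : ∀ w, ∃ b : S, r w ≠ s → St (T.induce S) s b (r w) := by
      intro w
      by_cases h : r w = s
      · exact ⟨s, fun h4 => absurd h h4⟩
      · obtain ⟨b, hb⟩ := St_exists hTS (p := s) (x := r w) (fun h4 => h h4.symm)
        exact ⟨b, fun _ => hb⟩
    choose B hB using h3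
    exact ⟨B, hB⟩
  have hBu : ∀ (w : V) (b : S), St (T.induce S) s b (r w) → B w = b := by
    intro w b hb
    exact St_unique hTS.isAcyclic (hB w fun h => hb.ne h.symm) hb
  have hsmadj : ∀ (g : G) (a b : S), (T.induce S).Adj a b → (T.induce S).Adj (g • a) (g • b) :=
    fun g a b hab => sm_adj hact hS g a b hab
  have hUs : ∀ g ∈ U, ∀ w, (r (g • w) = s ↔ r w = s) := by
    intro g hg w
    rw [hrsm]
    constructor
    · intro h3
      have h4 : g • (r w) = g • s := by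
        rw [hsm, hsm, h3, (hU g).1 hg]
      exact smul_left_cancel g h4
    · intro h3
      rw [h3, (hU g).1 hg]
  have hBg : ∀ g ∈ U, ∀ w, r w ≠ s → B (g • w) = sm hS g (B w) := by
    intro g hg w hw
    refine hBu _ _ ?_
    have h3 := St_smul hsmadj g (hB w hw)
    rw [hsm, hsm, hsm, (hU g).1 hg] at h3
    rwa [hrsm]
  have hBadj : ∀ u v : V, T.Adj u v → r u ≠ s → r v ≠ s → B u = B v := by
    intro u v huv hu hv
    have had : (T.induce S).Adj (r v) (r u) := (hradj u v huv).1.symm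
    refine hBu u _ (St_walk (hB v hv) (Walk.cons had Walk.nil) ?_)
    · rw [Walk.support_cons, Walk.support_nil, List.mem_cons, List.mem_singleton]
      rintro (h | h)
      · exact hv h.symm
      · exact hu h.symm
  have hBs : ∀ (w : V), T.Adj (s : V) (r w : V) → B w = r w := fun w h =>
    hBu w _ (St_adj (T := T.induce S) (p := s) (a := r w) h)
  -- the representatives of the directions
  let st : Setoid S :=
    ⟨fun a b => ∃ g ∈ U, sm hS g a = b, ⟨fun a => ⟨1, U.one_mem, sm_eq hS L.one_mem rfl⟩, by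
      rintro a b ⟨g, hg, h⟩
      refine ⟨g⁻¹, U.inv_mem hg, ?_⟩
      rw [← hsm] at h ⊢
      rw [← h, inv_smul_smul], by
      rintro a b c ⟨g, hg, h⟩ ⟨g', hg', h'⟩
      refine ⟨g' * g, U.mul_mem hg' hg, ?_⟩
      rw [← hsm] at h h' ⊢
      rw [mul_smul, h, h']⟩⟩
  obtain ⟨rep, hrep⟩ : ∃ rep : S → S, ∀ b, rep b = Quotient.out (Quotient.mk st b) :=
    ⟨_, fun _ => rfl⟩
  have hrepg : ∀ g ∈ U, ∀ b, rep (sm hS g b) = rep b := by
    intro g hg b
    rw [hrep, hrep]
    congr 1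
    exact (Quotient.sound ⟨g, hg, rfl⟩ : Quotient.mk st b = Quotient.mk st (sm hS g b)).symm
  have hkex : ∀ b, ∃ g ∈ U, sm hS g (rep b) = b := by
    intro b
    have h3 : st (Quotient.out (Quotient.mk st b)) b := Quotient.mk_out b
    rw [hrep]
    exact h3
  choose k hkU hk using hkex
  have hrepadj : ∀ b : S, T.Adj (s : V) (b : V) → T.Adj (s : V) (rep b : V) := by
    intro b hb
    have h3 := hsmadj (k b)⁻¹ s b hb
    have h4 : (k b)⁻¹ • s = s := by
      rw [inv_smul_eq_iff, hsm]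
      exact ((hU _).1 (hkU b)).symm
    have h5 : (k b)⁻¹ • b = rep b := by
      rw [inv_smul_eq_iff, hsm, hk]
    rw [h4, h5] at h3
    exact h3
  have hrr : ∀ b, rep (rep b) = rep b := by
    intro b
    have h3 := hrepg (k b) (hkU b) (rep b)
    rw [hk] at h3
    exact h3.symm
  -- the homomorphisms from the rational numbers
  have hjex : ∀ b : S, ∃ j : ℚ → D, (∀ p q, j (p + q) = j p * j q) ∧ (T.Adj (s : V) (b : V) →
      (∀ (y : G) (hy : y • (s : V) = s), y • (b : V) = b → j (f y) = ι ⟨y, hy⟩) ∧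
      ∀ q, j q = 1 → q = 0) := by
    intro b
    by_cases hb : T.Adj (s : V) (b : V)
    swap
    · exact ⟨fun _ => 1, fun _ _ => (mul_one 1).symm, fun h => absurd h hb⟩
    obtain ⟨c, hc1, hc2, hc3⟩ := hcyc b hb
    have hcL : c ∈ L := hAL _ (hA.edg _ _ hb c hc1 hc2)
    have hfc : f c ≠ 0 := by
      obtain ⟨n, hn, h3, h4⟩ := hE _ _ hb
      obtain ⟨i, hi⟩ := hc3 _ h3 h4
      have hi' : c ^ i = z ^ n := hi
      intro h5
      have h6 := hf.zpow hcL i
      rw [hi', h5, mul_zero] at h6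
      exact hfz n hn (hAL _ (hA.edg _ _ hb _ h3 h4)) h6
    obtain ⟨j1, hj1, hj2⟩ := exists_qhom hdiv (ι ⟨c, hc1⟩)
    refine ⟨fun q => j1 (q / f c), fun p q => ?_, fun _ => ⟨?_, ?_⟩⟩
    · show j1 ((p + q) / f c) = _
      rw [add_div, hj1]
    · intro y hy hyb
      obtain ⟨i, hi⟩ := hc3 y hy hyb
      have hi' : c ^ i = y := hi
      have e1 : f y / f c = i := by
        rw [← hi', hf.zpow hcL i, mul_div_assoc, div_self hfc, mul_one]
      show j1 (f y / f c) = _
      rw [e1, hj2, ← map_zpow]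
      congr 1
      exact Subtype.ext hi'
    · intro q hq
      have hq' : j1 (q / f c) = 1 := hq
      have hpow : ∀ (p : ℚ) (n : ℕ), j1 (n * p) = j1 p ^ n := by
        intro p n
        induction n with
        | zero =>
          have h3 := hj2 0
          rw [zpow_zero, Int.cast_zero] at h3
          rw [Nat.cast_zero, zero_mul, pow_zero, h3]
        | succ n ih =>
          rw [Nat.cast_succ, add_mul, one_mul, hj1, ih, pow_succ]
      have h3 := hpow (q / f c) (q / f c).den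
      rw [hq', one_pow, mul_comm, Rat.mul_den_eq_num, hj2] at h3
      have h4 : (q / f c).num = 0 := by
        by_contra h5
        have h6 : ι (⟨c, hc1⟩ ^ (q / f c).num) = 1 := by rw [map_zpow, h3]
        have h7 : c ^ (q / f c).num = 1 := by
          have h8 := hι (h6.trans (map_one ι).symm)
          exact congrArg Subtype.val h8
        have h8 := hf.zpow hcL (q / f c).num
        rw [h7, hf.one] at h8
        rcases mul_eq_zero.1 h8.symm with h9 | h9
        · exact h5 (by exact_mod_cast h9)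
        · exact hfc h9
      have h5 : q / f c = 0 := Rat.num_eq_zero.1 h4
      rcases div_eq_zero_iff.1 h5 with h6 | h6
      · exact h6
      · exact absurd h6 hfc
  choose j hjadd hj using hjex
  have hj0 : ∀ b, j b 0 = 1 := by
    intro b
    have h3 := hjadd b 0 0
    rw [add_zero] at h3
    exact left_eq_mul.1 h3
  -- representatives of the orbit of `s`
  obtain ⟨h, hhs, hhL, hh⟩ : ∃ h : V → G, h s = 1 ∧ (∀ w, h w ∈ L) ∧ ∀ w, r w = s → h w • (s : V) = w := by
    refine ⟨fun w => l w * (l s)⁻¹, mul_inv_cancel _, fun w => mul_mem (hl w) (inv_mem (hl s)), ?_⟩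
    intro w hw
    have h3 := hlr (s : V)
    rw [hrS] at h3
    rw [mul_smul, inv_smul_eq_iff.2 h3.symm]
    have h4 := hlr w
    rwa [hw] at h4
  -- the cocycle
  obtain ⟨μ, hμ1, hμ2⟩ : ∃ μ : U → V → D,
      (∀ g w, r w = s → μ g w = pt ι ((h ((g : G) • w))⁻¹ * g * h w)) ∧
      ∀ g w, r w ≠ s → μ g w = j (rep (B w)) (f ((k (B ((g : G) • w)))⁻¹ * g * k (B w))) :=
    ⟨fun g w => if r w = s then pt ι ((h ((g : G) • w))⁻¹ * g * h w) else
      j (rep (B w)) (f ((k (B ((g : G) • w)))⁻¹ * g * k (B w))),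
      fun g w hw => if_pos hw, fun g w hw => if_neg hw⟩
  have hst : ∀ (g : G), g ∈ U → ∀ w : V, r w = s →
      ((h (g • w))⁻¹ * g * h w) • (s : V) = s := by
    intro g hg w hw
    rw [mul_smul, mul_smul, hh w hw, inv_smul_eq_iff, hh _ ((hUs g hg w).2 hw)]
  have hkL : ∀ (g : G), g ∈ U → ∀ w : V, r w ≠ s →
      (k (B (g • w)))⁻¹ * g * k (B w) ∈ L := by
    intro g hg w hw
    have hbadj : T.Adj (s : V) (rep (B w) : V) := hrepadj _ (hB w hw).1
    refine fix_nbr hact hA hAL hS (s := s) (t := rep (B w)) hbadj ?_ ?_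
    · rw [← hsm, mul_smul, mul_smul, hsm (k (B w)), (hU _).1 (hkU _), hsm g, (hU _).1 hg,
        inv_smul_eq_iff, hsm, (hU _).1 (hkU _)]
    · rw [← hsm, mul_smul, mul_smul, hsm (k (B w)), hk, inv_smul_eq_iff, hsm, hsm, ← hBg g hg w hw]
      have h3 := hk (B (g • w))
      have h4 : rep (B (g • w)) = rep (B w) := by rw [hBg g hg w hw, hrepg g hg]
      rw [h4] at h3
      exact h3.symm
  have hrepB : ∀ g ∈ U, ∀ w, r w ≠ s → rep (B (g • w)) = rep (B w) := fun g hg w hw => by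
    rw [hBg g hg w hw, hrepg g hg]
  have hcoc : ∀ (g g' : U) (w : V), μ (g * g') w = μ g ((g' : G) • w) * μ g' w := by
    intro g g' w
    by_cases hw : r w = s
    · have hw' := (hUs g' g'.2 w).2 hw
      rw [hμ1 _ _ hw, hμ1 _ _ hw, hμ1 _ _ hw', ← pt_mul ι (hst g g.2 _ hw') (hst g' g'.2 w hw)]
      congr 1
      show (h (((g : G) * g') • w))⁻¹ * ((g : G) * g') * h w = _
      rw [mul_smul]
      group
    · have hw' : r ((g' : G) • w) ≠ s := fun h3 => hw ((hUs g' g'.2 w).1 h3)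
      rw [hμ2 _ _ hw, hμ2 _ _ hw, hμ2 _ _ hw', hrepB g' g'.2 w hw, ← hjadd]
      congr 1
      rw [← hf _ (hkL g g.2 _ hw') _ (hkL g' g'.2 w hw)]
      congr 1
      show (k (B (((g : G) * g') • w)))⁻¹ * ((g : G) * g') * k (B w) = _
      rw [mul_smul]
      group
  -- the edges at the orbit of `s`
  have hedge : ∀ u v : V, T.Adj u v → r u = s → ∃ a : U, (a : G) • (s : V) = u ∧
      (a : G) • (rep (B v) : V) = v := by
    intro u v huv hu
    obtain ⟨h3, a, ha, h4, h5⟩ := hradj u v huv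
    rw [hu] at h3 h4
    have hbv : B v = r v := hBs v h3
    have h6 : T.Adj (s : V) (rep (r v) : V) := hrepadj _ h3
    have h7 := hact (k (r v)) _ _ h6
    obtain ⟨-, b, hb, h8, h9⟩ := hradj _ _ h7
    rw [hrsm, hrS, (hU _).1 (hkU _)] at h8
    rw [hrsm, hrS, hk] at h9
    refine ⟨⟨a * b⁻¹ * k (r v), U.mul_mem (hLU (mul_mem ha (inv_mem hb))) (hkU _)⟩, ?_, ?_⟩
    · show (a * b⁻¹ * k (r v)) • (s : V) = u
      rw [mul_smul, ← h8, mul_smul, inv_smul_smul, h4]
    · show (a * b⁻¹ * k (r v)) • (rep (B v) : V) = v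
      rw [hbv, mul_smul, ← h9, mul_smul, inv_smul_smul, h5]
  obtain ⟨lam, hlam1, hlam2⟩ : ∃ lam : V → V → U, (∀ u v, T.Adj u v → r u = s →
      (lam u v : G) • (s : V) = u) ∧ ∀ u v, T.Adj u v → r u = s →
      (lam u v : G) • (rep (B v) : V) = v := by
    have h3 : ∀ u v : V, ∃ a : U, T.Adj u v → r u = s → (a : G) • (s : V) = u ∧
        (a : G) • (rep (B v) : V) = v := by
      intro u v
      by_cases h4 : T.Adj u v ∧ r u = s
      · obtain ⟨a, ha⟩ := hedge u v h4.1 h4.2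
        exact ⟨a, fun _ _ => ha⟩
      · exact ⟨1, fun h5 h6 => absurd ⟨h5, h6⟩ h4⟩
    choose lam hlam using h3
    exact ⟨lam, fun u v h4 h5 => (hlam u v h4 h5).1, fun u v h4 h5 => (hlam u v h4 h5).2⟩
  obtain ⟨ε, hε⟩ : ∃ ε : V → V → D, ∀ u v, ε u v =
      μ (lam u v) s * (μ (lam u v) (rep (B v) : V))⁻¹ := ⟨_, fun _ _ => rfl⟩
  have hne : ∀ u v : V, T.Adj u v → r u = s → r v ≠ s := by
    intro u v huv hu hv
    have h3 := (hradj u v huv).1
    rw [hu, hv] at h3
    exact h3.ne rfl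
  -- the stabilizers of the edges
  have hstab : ∀ (b : S), T.Adj (s : V) (rep b : V) → ∀ t : U, (t : G) • (s : V) = s →
      (t : G) • (rep b : V) = rep b → μ t s = μ t (rep b : V) := by
    intro b hb t ht1 ht2
    have hbs : r (rep b : V) ≠ s := by
      rw [hrS]
      intro h3
      rw [h3] at hb
      exact hb.ne rfl
    have hBb : B (rep b : V) = rep b := by
      rw [hBs _ (by rw [hrS]; exact hb), hrS]
    rw [hμ1 _ _ (hrS s), hμ2 _ _ hbs, ht1, ht2, hhs, hBb, hrr, inv_one, one_mul, mul_one]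
    have htL : (t : G) ∈ L := hAL _ (hA.edg _ _ hb _ ht1 ht2)
    have hkk : k (rep b) ∈ L := by
      refine fix_nbr hact hA hAL hS (s := s) (t := rep b) hb ((hU _).1 (hkU _)) ?_
      have h3 := hk (rep b)
      rwa [hrr] at h3
    have h3 : f ((k (rep b))⁻¹ * t * k (rep b)) = f t := by
      rw [hf _ (mul_mem (inv_mem hkk) htL) _ hkk, hf _ (inv_mem hkk) _ htL, hf.inv hkk]
      ring
    rw [h3, (hj (rep b) hb).1 t ht1 ht2, pt_eq ι ht1]
  have hεg : ∀ (g : U) (u v : V), T.Adj u v → r u = s →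
      ε ((g : G) • u) ((g : G) • v) = μ g u * ε u v * (μ g v)⁻¹ := by
    intro g u v huv hu
    have huv' := hact (g : G) _ _ huv
    have hu' := (hUs g g.2 u).2 hu
    have hv := hne u v huv hu
    have hadj : T.Adj (s : V) (rep (B v) : V) := hrepadj _ (hB v hv).1
    obtain ⟨t, ht⟩ : ∃ t : U, t = (lam ((g : G) • u) ((g : G) • v))⁻¹ * (g * lam u v) := ⟨_, rfl⟩
    have hgl : g * lam u v = lam ((g : G) • u) ((g : G) • v) * t := by
      rw [ht, mul_inv_cancel_left]
    have ht1 : (t : G) • (s : V) = s := by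
      rw [ht]
      show ((lam ((g : G) • u) ((g : G) • v) : G)⁻¹ * ((g : G) * lam u v)) • (s : V) = s
      rw [mul_smul, mul_smul, hlam1 u v huv hu, inv_smul_eq_iff, hlam1 _ _ huv' hu']
    have ht2 : (t : G) • (rep (B v) : V) = rep (B v) := by
      rw [ht]
      show ((lam ((g : G) • u) ((g : G) • v) : G)⁻¹ * ((g : G) * lam u v)) • (rep (B v) : V) = _
      have h3 := hlam2 _ _ huv' hu'
      rw [hrepB g g.2 v hv] at h3
      rw [mul_smul, mul_smul, hlam2 u v huv hu, inv_smul_eq_iff, h3]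
    have h3 := hstab (B v) hadj t ht1 ht2
    have h4 : μ g u * μ (lam u v) s = μ (g * lam u v) s := by
      rw [hcoc, hlam1 u v huv hu]
    have h5 : μ g v * μ (lam u v) (rep (B v) : V) = μ (g * lam u v) (rep (B v) : V) := by
      rw [hcoc, hlam2 u v huv hu]
    have h6 : μ (g * lam u v) s = μ (lam ((g : G) • u) ((g : G) • v)) s * μ t s := by
      rw [hgl, hcoc, ht1]
    have h7 : μ (g * lam u v) (rep (B v) : V) =
        μ (lam ((g : G) • u) ((g : G) • v)) (rep (B v) : V) * μ t (rep (B v) : V) := by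
      rw [hgl, hcoc, ht2]
    rw [hε, hε, hrepB g g.2 v hv]
    have h8 : μ g u * (μ (lam u v) s * (μ (lam u v) (rep (B v) : V))⁻¹) * (μ g v)⁻¹ =
        μ (g * lam u v) s * (μ (g * lam u v) (rep (B v) : V))⁻¹ := by
      rw [← h4, ← h5]
      group
    rw [h8, h6, h7, h3]
    group
  -- the homomorphism
  obtain ⟨e, he⟩ : ∃ e : V → V → D, ∀ u v, e u v =
      if r u = s then ε u v else if r v = s then (ε v u)⁻¹ else 1 := ⟨_, fun _ _ => rfl⟩
  have hactU : ∀ (g : U) (u v : V), T.Adj u v → T.Adj (g • u) (g • v) := fun g u v h => hact g u v h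
  obtain ⟨ρ, hρ⟩ := gauge_hom (G := U) (V := V) (D := D) hT hactU μ hcoc e (by
    intro u v huv
    rw [he, he]
    by_cases hu : r u = s
    · rw [if_pos hu, if_neg (hne u v huv hu), if_pos hu, mul_inv_cancel]
    · by_cases hv : r v = s
      · rw [if_neg hu, if_pos hv, if_pos hv, inv_mul_cancel]
      · rw [if_neg hu, if_neg hv, if_neg hv, if_neg hu, mul_one]) (by
    intro g u v huv
    show e ((g : G) • u) ((g : G) • v) = _
    rw [he, he]
    by_cases hu : r u = s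
    · rw [if_pos ((hUs g g.2 u).2 hu), if_pos hu, hεg g u v huv hu]
    · have hu' : r ((g : G) • u) ≠ s := fun h3 => hu ((hUs g g.2 u).1 h3)
      by_cases hv : r v = s
      · rw [if_neg hu', if_neg hu, if_pos ((hUs g g.2 v).2 hv), if_pos hv,
          hεg g v u huv.symm hv]
        group
      · have hv' : r ((g : G) • v) ≠ s := fun h3 => hv ((hUs g g.2 v).1 h3)
        rw [if_neg hu', if_neg hu, if_neg hv', if_neg hv, hμ2 _ _ hu, hμ2 _ _ hv,
          hBadj u v huv hu hv, hBadj _ _ (hact (g : G) _ _ huv) hu' hv', mul_one, mul_inv_cancel])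
  -- the kernel
  have hker : ∀ (w : V), r w ≠ s → ∀ x : V, T.Adj w x → ∀ g : U, (g : G) • w = w → (g : G) • x = x →
      ρ g = 1 → ¬ Inf (g : G) := by
    intro w hw x hwx g hg hgx hρg hinf'
    obtain ⟨c, hc⟩ := hρ w
    have h3 : μ g w = 1 := by
      have h4 := hc g hg
      rw [hρg] at h4
      have h5 : c⁻¹ * 1 * c = μ g w := by
        rw [h4]
        group
      rw [← h5]
      group
    rw [hμ2 _ _ hw, hg] at h3
    have h4 := (hj (rep (B w)) (hrepadj _ (hB w hw).1)).2 _ h3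
    -- commensurability
    obtain ⟨n, hn, h5, h6⟩ := hE w x hwx
    obtain ⟨a, b, ha, hb, hab'⟩ := hEr w x hwx (g : G) (z ^ n) hg hgx h5 h6 hinf' (hz.zpow hn)
    obtain ⟨p, q, hp, hq, hpq⟩ := hcom (k (B w))⁻¹
    rw [inv_inv] at hpq
    have hgL : (g : G) ∈ L := hAL _ (hA.edg _ _ hwx _ hg hgx)
    have h7 : (k (B w))⁻¹ * (g : G) * k (B w) ∈ L := by
      have h8 := hLn.conj_mem _ hgL (k (B w))⁻¹
      rwa [inv_inv] at h8
    have h8 : ((k (B w))⁻¹ * (g : G) * k (B w)) ^ (a * p) = z ^ (q * (n * b)) := by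
      have h9 : ∀ i : ℤ, ((k (B w))⁻¹ * (g : G) * k (B w)) ^ i =
          (k (B w))⁻¹ * (g : G) ^ i * k (B w) := by
        intro i
        have := conj_zpow (a := (k (B w))⁻¹) (b := (g : G)) (i := i)
        rwa [inv_inv] at this
      rw [h9, zpow_mul, hab', ← zpow_mul, ← zpow_mul]
      have h10 : z ^ (n * (b * p)) = (z ^ p) ^ (n * b) := by
        rw [← zpow_mul]
        congr 1
        ring
      rw [h10]
      have h11 := conj_zpow (a := (k (B w))⁻¹) (b := z ^ p) (i := n * b)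
      rw [inv_inv] at h11
      rw [← h11, hpq, ← zpow_mul]
    have h9 := hf.zpow h7 (a * p)
    rw [h4, mul_zero, h8] at h9
    refine hfz _ (mul_ne_zero hq (mul_ne_zero hn hb)) ?_ h9
    rw [← h8]
    exact L.zpow_mem h7 _
  refine kfin (G := U) (V := V) (T := T) hC hM hAc hT hactU ρ hD ?_ ?_
  · intro w
    exact C_stab hC U w (hV w)
  · intro u v huv
    obtain ⟨n, hn⟩ := hEt u v huv
    refine ⟨n, fun F hF => ?_⟩
    have h3 := hn.sub' (H := U)
    refine h3 (ρ.ker ⊓ (MulAction.stabilizer U u ⊓ MulAction.stabilizer U v)) ?_ F ?_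
    · rintro g ⟨hg, hgu, hgv⟩
      refine ⟨hgu, hgv, ?_⟩
      have h4 : ¬ Inf (g : G) := by
        by_cases hu : r u = s
        · exact hker v (hne u v huv hu) u huv.symm g hgv hgu hg
        · exact hker u hu v huv g hgu hgv hg
      obtain ⟨m, hm, h5⟩ := not_inf h4
      exact ⟨m, hm, Subtype.ext h5⟩
    · intro g hg
      obtain ⟨h1, h2, h3⟩ := hF g hg
      exact ⟨h3, h1, h2⟩

end Pool.Agent.H4.CS
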